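import Pool.Agent.P.MP_9d1793_al.Main

open Pool.Agent.P.MP_9d1793_al in
theorem Pool.Agent.Results.MP_9d1793_al.Amalgam.result
    {ι : Type} [Finite ι] [Nonempty ι] {G₀ : Type} [Group G₀] {G : ι → Type}
    [∀ i, Group (G i)] (φ : ∀ i, G₀ →* G i) (hφ : ∀ i, Function.Injective (φ i)) [Infinite G₀]
    (h₀ : VirtuallyCyclic G₀) (hfib : ∀ i, VirtuallyFibered (G i))
    (hvr : ∀ i, VirtualRetract (φ i).range) : VirtuallyFibered (Monoid.PushoutI φ) :=
  Pool.Agent.P.MP_9d1793_al.main φ hφ h₀ hfib hvr
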